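import Pool.Agent.Helper47.OrbN.Count
import Pool.Agent.Helper47.OrbN.Det

/-!
Isospectral spherical orbifolds with non-isomorphic groups in every dimension `d ≥ 3`.
-/

set_option autoImplicit false

open MvPolynomial

namespace Pool.Agent.Helper47.Keep.OrbAllDimensions

/-- The harmonic homogeneous polynomials of degree `k` on `ℝ^(d+1)` that are invariant under the
group `Γ` of orthogonal matrices. -/
noncomputable def Harm (d : ℕ) (Γ : Subgroup (Matrix.orthogonalGroup (Fin (d + 1)) ℝ)) (k : ℕ) :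
    Submodule ℝ (MvPolynomial (Fin (d + 1)) ℝ) :=
  homogeneousSubmodule (Fin (d + 1)) ℝ k ⊓
    LinearMap.ker (∑ i : Fin (d + 1), (pderiv i).toLinearMap ∘ₗ (pderiv i).toLinearMap) ⊓
    ⨅ g ∈ Γ, LinearMap.ker ((aeval (fun i : Fin (d + 1) =>
      ∑ j : Fin (d + 1), C (g.1 i j) * X j)).toLinearMap - LinearMap.id)

/-- The multiplicity of the real number `lam` in the spectrum of `S^d/Γ`: the sum of the dimensions of
`Harm d Γ k` over all `k` with `k (k + d - 1) = lam`. -/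
noncomputable def multiplicity (d : ℕ) (Γ : Subgroup (Matrix.orthogonalGroup (Fin (d + 1)) ℝ))
    (lam : ℝ) : ℕ :=
  ∑ᶠ k : {k : ℕ // (k : ℝ) * ((k : ℝ) + (d : ℝ) - 1) = lam}, Module.finrank ℝ (Harm d Γ k.1)

theorem result : ∀ d : ℕ, 3 ≤ d →
    ∃ Γ Γ' : Subgroup (Matrix.orthogonalGroup (Fin (d + 1)) ℝ),
      Finite Γ ∧ Finite Γ' ∧ (∀ g ∈ Γ, g.1.det = 1) ∧ (∀ g ∈ Γ', g.1.det = 1) ∧
      (¬ Nonempty (Γ ≃* Γ')) ∧
      (¬ ∃ h : Matrix.orthogonalGroup (Fin (d + 1)) ℝ, ∀ g, g ∈ Γ ↔ h * g * h⁻¹ ∈ Γ') ∧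
      (∀ k : ℕ, Module.finrank ℝ (Harm d Γ k) = Module.finrank ℝ (Harm d Γ' k)) ∧
      (∀ lam : ℝ, multiplicity d Γ lam = multiplicity d Γ' lam) := by
  intro d hd
  obtain ⟨m, rfl⟩ : ∃ m, d = m + 3 := ⟨d - 3, by omega⟩
  have hk : ∀ k : ℕ, Module.finrank ℝ (Harm (m + 3) (Helper47.OrbN.G1 m) k) =
      Module.finrank ℝ (Harm (m + 3) (Helper47.OrbN.G2 m) k) := by
    intro k
    have h := Helper47.OrbN.isospectral (m := m) k
    unfold Helper47.OrbN.U at h
    rw [inf_right_comm, inf_right_comm (homogeneousSubmodule (Fin (m + 4)) ℝ k)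
      (Helper47.OrbN.Inv (Helper47.OrbN.G2 m))] at h
    exact h
  refine ⟨Helper47.OrbN.G1 m, Helper47.OrbN.G2 m, inferInstance, inferInstance,
    fun g hg => Helper47.OrbN.G1_le hg, fun g hg => Helper47.OrbN.G2_le hg,
    Helper47.OrbN.not_iso, Helper47.OrbN.not_conj, hk, fun lam => ?_⟩
  unfold multiplicity
  exact finsum_congr fun k => hk k.1

end Pool.Agent.Helper47.Keep.OrbAllDimensions
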