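import Pool.Agent.Helper30.LS.Lower
import Pool.Agent.Helper59.Pack.Chain

/-!
# The minima for packings with reflected copies are larger than the minima for translates

The four minima of the problem satisfy
`m_L ≤ m_T ≤ 2/5 < 9/20 ≤ m_{L*} ≤ m_{T*}`.

The new part is the lower bound `δ_{L*}(K) ≥ 9/20` for every convex body `K ⊂ ℝ³`.
-/

set_option autoImplicit false

namespace Pool.Agent.Results.MP_3d065d_co.SeparatedMinima

open Pool.Agent.Helper59.Pack Pool.Agent.Helper69.MD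
open scoped ENNReal

/-- Every convex body `K ⊂ ℝ³` has `δ_{L*}(K) ≥ 9/20`, while `m_T ≤ 2/5`; so
`m_L ≤ m_T < m_{L*} ≤ m_{T*}`. -/
theorem result :
    (∀ K : Set E3, IsConvexBody K → 9 / 20 ≤ deltaLstar K) ∧
      mL ≤ mT ∧ mT ≤ 2 / 5 ∧ 9 / 20 ≤ mLstar ∧ mLstar ≤ mTstar := by
  obtain ⟨-, h2, h3, -, h5⟩ := chain
  have h : ∀ K : Set E3, IsConvexBody K → 9 / 20 ≤ deltaLstar K := fun K hK => by
    have h := Pool.Agent.Helper7.LS.deltaLstar_lower' hK
    rwa [ENNReal.ofReal_div_of_pos (by norm_num), show ENNReal.ofReal 9 = 9 by simp,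
      show ENNReal.ofReal 20 = 20 by simp] at h
  exact ⟨h, h2, h3, le_iInf fun K => le_iInf fun hK => h K hK, h5⟩

end Pool.Agent.Results.MP_3d065d_co.SeparatedMinima
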